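import Mathlib

namespace Pool.Agent.Results.MP_5cfb27_co.Bounded

/-- The outcome (total of the mover, total of the other player) from a heap of size h with
subtraction set S. The mover uses convention c and the other player d, where true means
antagonistic and false friendly. With no legal move both sets are empty and the value is (0, 0). -/
noncomputable def o (S : Finset ℕ) (c d : Bool) (h : ℕ) : ℕ × ℕ :=
  let best := sSup {v | ∃ s ∈ S, ∃ _h : 0 < s ∧ s ≤ h, v = s + (o S d c (h - s)).2}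
  let opp := {w | ∃ s ∈ S, ∃ _h : 0 < s ∧ s ≤ h,
    s + (o S d c (h - s)).2 = best ∧ w = (o S d c (h - s)).1}
  (best, if c = true then sInf opp else sSup opp)
termination_by h
decreasing_by all_goals omega

lemma fin1 (S : Finset ℕ) (h : ℕ) (f : ℕ → ℕ) (P : ℕ → Prop) :
    {v | ∃ s ∈ S, ∃ _h : 0 < s ∧ s ≤ h, P s ∧ v = f s}.Finite :=
  (S.finite_toSet.image f).subset (by
    rintro v ⟨s, hs, -, -, rfl⟩
    exact ⟨s, hs, rfl⟩)

lemma spec (S : Finset ℕ) (c d : Bool) (h : ℕ) :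
    ((∀ s ∈ S, ¬ (0 < s ∧ s ≤ h)) ∧ o S c d h = (0, 0)) ∨
      ((∃ s ∈ S, (0 < s ∧ s ≤ h) ∧ s + (o S d c (h - s)).2 = (o S c d h).1 ∧
          (o S d c (h - s)).1 = (o S c d h).2) ∧
        ∀ s ∈ S, 0 < s ∧ s ≤ h → s + (o S d c (h - s)).2 ≤ (o S c d h).1) := by
  by_cases h0 : ∀ s ∈ S, ¬ (0 < s ∧ s ≤ h)
  · left
    refine ⟨h0, ?_⟩
    rw [o]
    have e1 : {v | ∃ s ∈ S, ∃ _h : 0 < s ∧ s ≤ h, v = s + (o S d c (h - s)).2} = ∅ := by
      ext v
      simp only [Set.mem_ofPred_eq, Set.mem_empty_iff_false, iff_false]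
      rintro ⟨s, hs, l, -⟩
      exact h0 s hs l
    have e2 : ∀ b, {w | ∃ s ∈ S, ∃ _h : 0 < s ∧ s ≤ h,
        s + (o S d c (h - s)).2 = b ∧ w = (o S d c (h - s)).1} = ∅ := by
      intro b
      ext v
      simp only [Set.mem_ofPred_eq, Set.mem_empty_iff_false, iff_false]
      rintro ⟨s, hs, l, -⟩
      exact h0 s hs l
    simp only [e1, e2]
    simp
  · right
    push Not at h0
    obtain ⟨s0, hs0, l0⟩ := h0
    set A := {v | ∃ s ∈ S, ∃ _h : 0 < s ∧ s ≤ h, v = s + (o S d c (h - s)).2} with hA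
    have fA : A.Finite := (fin1 S h (fun s => s + (o S d c (h - s)).2) (fun _ => True)).subset
      (by rintro v ⟨s, hs, l, rfl⟩; exact ⟨s, hs, l, trivial, rfl⟩)
    have nA : A.Nonempty := ⟨_, s0, hs0, l0, rfl⟩
    have mA : sSup A ∈ A := Nat.sSup_mem nA fA.bddAbove
    set B := {w | ∃ s ∈ S, ∃ _h : 0 < s ∧ s ≤ h,
      s + (o S d c (h - s)).2 = sSup A ∧ w = (o S d c (h - s)).1} with hB
    have fB : B.Finite := fin1 S h (fun s => (o S d c (h - s)).1) _
    have nB : B.Nonempty := by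
      obtain ⟨s, hs, l, e⟩ := mA
      exact ⟨_, s, hs, l, e.symm, rfl⟩
    have e : o S c d h = (sSup A, if c = true then sInf B else sSup B) := by rw [o]
    have mB : (o S c d h).2 ∈ B := by
      rw [e]
      cases c
      · simpa using Nat.sSup_mem nB fB.bddAbove
      · simpa using Nat.sInf_mem nB
    have e1 : (o S c d h).1 = sSup A := by rw [e]
    refine ⟨?_, ?_⟩
    · obtain ⟨s, hs, l, h1, h2⟩ := mB
      exact ⟨s, hs, l, by rw [e1, h1], h2.symm⟩
    · intro s hs l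
      rw [e1]
      exact le_csSup fA.bddAbove ⟨s, hs, l, rfl⟩

lemma total (S : Finset ℕ) (h : ℕ) : ∀ c d, (o S c d h).1 + (o S c d h).2 ≤ h := by
  induction h using Nat.strong_induction_on with
  | _ h ih =>
    intro c d
    rcases spec S c d h with ⟨-, e⟩ | ⟨⟨s, -, l, h1, h2⟩, -⟩
    · simp [e]
    · have := ih (h - s) (by omega) d c
      omega

lemma low1 (S : Finset ℕ) (m : ℕ) (hm : m ∈ S) (h0 : 0 < m) (hle : ∀ s ∈ S, s ≤ m) (h : ℕ) :
    ∀ c d, h ≤ 2 * (o S c d h).1 + 2 * m := by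
  induction h using Nat.strong_induction_on with
  | _ h ih =>
    intro c d
    by_cases hh : h < 2 * m
    · omega
    · rcases spec S c d h with ⟨hn, -⟩ | ⟨-, hall⟩
      · exact absurd ⟨h0, by omega⟩ (hn m hm)
      · have a := hall m hm ⟨h0, by omega⟩
        rcases spec S d c (h - m) with ⟨hn, -⟩ | ⟨⟨s, hs, l, -, h2⟩, -⟩
        · exact absurd ⟨h0, by omega⟩ (hn m hm)
        · have := ih (h - m - s) (by omega) c d
          have := hle s hs
          omega

lemma low2 (S : Finset ℕ) (m : ℕ) (hm : m ∈ S) (h0 : 0 < m) (hle : ∀ s ∈ S, s ≤ m) (h : ℕ)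
    (c d : Bool) : h ≤ 2 * (o S c d h).2 + 3 * m := by
  rcases spec S c d h with ⟨hn, -⟩ | ⟨⟨s, hs, l, -, h2⟩, -⟩
  · have := hn m hm
    omega
  · have := low1 S m hm h0 hle (h - s) d c
    have := hle s hs
    omega

theorem result (S : Finset ℕ) (hS : S.Nonempty) (hpos : ∀ s ∈ S, 0 < s) :
    ∃ C : ℤ, ∀ (c d c' d' : Bool) (h : ℕ),
      |((o S c' d' h).1 : ℤ) - (o S c d h).1| ≤ C ∧ |((o S c' d' h).2 : ℤ) - (o S c d h).2| ≤ C := by
  have hm := S.max'_mem hS
  have hle : ∀ s ∈ S, s ≤ S.max' hS := fun s hs => S.le_max' s hs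
  generalize S.max' hS = m at hm hle
  refine ⟨3 * m, fun c d c' d' h => ?_⟩
  have a1 := low1 S m hm (hpos m hm) hle h c d
  have a2 := low2 S m hm (hpos m hm) hle h c d
  have a3 := total S h c d
  have b1 := low1 S m hm (hpos m hm) hle h c' d'
  have b2 := low2 S m hm (hpos m hm) hle h c' d'
  have b3 := total S h c' d'
  constructor <;> rw [abs_le] <;> constructor <;> omega

end Pool.Agent.Results.MP_5cfb27_co.Bounded
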